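import Pool.Agent.Q35.UNS.Star

set_option autoImplicit false

/-! One improvement on the trivial bound `r ≤ (1 - 1/m) diam` for simplices with `m` vertices, for a
single `m`, already forces superreflexivity. -/

namespace Pool.Agent.Results.MP_e45c49_an.OneSimplex

open Set Pool.Agent.Helper983.UNS Pool.Agent.Q35.UNS

variable {X : Type} [NormedAddCommGroup X] [NormedSpace ℝ X]

/-- The Chebyshev radius of `C` with respect to centres in `C`. -/
noncomputable def cheb (C : Set X) : ℝ := sInf ((fun x : X => sSup ((fun y : X => ‖x - y‖) '' C)) '' C)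

variable (X) in
/-- `X` has uniform normal structure. -/
def UniformNormalStructure : Prop :=
  ∃ c : ℝ, c < 1 ∧ ∀ C : Set X, C ⊆ Metric.closedBall (0 : X) 1 → Convex ℝ C → C.Nontrivial →
    cheb C ≤ c * Metric.diam C

variable (X) in
/-- Every simplex `C` (convex hull of `m` points, not all equal) in the unit ball of `X` satisfies
`r(C) ≤ c diam C`. -/
def SimplexBound (m : ℕ) (c : ℝ) : Prop :=
  ∀ z : Fin m → X, convexHull ℝ (range z) ⊆ Metric.closedBall (0 : X) 1 →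
    (convexHull ℝ (range z)).Nontrivial →
      cheb (convexHull ℝ (range z)) ≤ c * Metric.diam (convexHull ℝ (range z))

variable (X) in
/-- `X` has an equivalent uniformly convex norm, i.e. is superreflexive (for Banach `X`). -/
def UCRenorming : Prop :=
  ∃ N : X → ℝ,
    (∀ x y : X, N (x + y) ≤ N x + N y) ∧
    (∀ (t : ℝ) (x : X), N (t • x) = |t| * N x) ∧
    (∃ a b : ℝ, 0 < a ∧ 0 < b ∧ ∀ x : X, a * ‖x‖ ≤ N x ∧ N x ≤ b * ‖x‖) ∧
    (∀ ε : ℝ, 0 < ε → ∃ δ : ℝ, 0 < δ ∧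
      ∀ x y : X, N x ≤ 1 → N y ≤ 1 → ε ≤ N (x - y) → N (x + y) ≤ 2 - δ)

variable (X) in
/-- The norm of `X` is uniformly convex. -/
def UniformlyConvexNorm : Prop :=
  ∀ ε : ℝ, 0 < ε → ∃ δ : ℝ, 0 < δ ∧
    ∀ x y : X, ‖x‖ ≤ 1 → ‖y‖ ≤ 1 → ε ≤ ‖x - y‖ → ‖x + y‖ ≤ 2 - δ

lemma exists_center {m : ℕ} (hm : 0 < m) {c c' : ℝ} (hU : SimplexBound X m c) (hc' : c < c')
    (hc'0 : 0 < c') (z : Fin m → X) (h : ∀ i j, ‖z i - z j‖ ≤ 1) :
    ∃ w : Fin m → ℝ, (∀ i, 0 ≤ w i) ∧ ∑ i, w i = 1 ∧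
      ∀ i, ‖z i - ∑ j, w j • z j‖ ≤ c' := by
  classical
  set i₀ : Fin m := ⟨0, hm⟩ with hi₀
  by_cases hall : ∀ i, z i = z i₀
  · refine ⟨fun j => if j = i₀ then 1 else 0, fun j => by dsimp only; split_ifs <;> norm_num, by simp, ?_⟩
    intro i
    have : ∑ j, (if j = i₀ then (1 : ℝ) else 0) • z j = z i₀ := by simp
    rw [this, hall i, sub_self, norm_zero]
    exact hc'0.le
  push Not at hall
  obtain ⟨i₁, hi₁⟩ := hall
  set f : Fin m → X := fun i => z i - z i₀ with hf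
  set C := convexHull ℝ (Set.range f) with hC
  have hCball : C ⊆ Metric.closedBall (0 : X) 1 := by
    apply convexHull_min _ (convex_closedBall _ _)
    rintro _ ⟨i, rfl⟩
    rw [mem_closedBall_zero_iff]
    exact h i i₀
  have hmem : ∀ i, f i ∈ C := fun i => subset_convexHull ℝ _ ⟨i, rfl⟩
  have hnt : C.Nontrivial := by
    refine ⟨f i₁, hmem _, f i₀, hmem _, ?_⟩
    simp only [hf, sub_self, ne_eq, sub_eq_zero]
    exact hi₁
  have hdiam : Metric.diam C ≤ 1 := by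
    rw [hC, convexHull_diam]
    apply Metric.diam_le_of_forall_dist_le zero_le_one
    rintro _ ⟨i, rfl⟩ _ ⟨j, rfl⟩
    rw [dist_eq_norm]
    simp only [hf, sub_sub_sub_cancel_right]
    exact h i j
  have hlt : sInf ((fun x : X => sSup ((fun y : X => ‖x - y‖) '' C)) '' C) < c' := by
    refine lt_of_le_of_lt (hU f hCball hnt) ?_
    have hd0 : 0 ≤ Metric.diam C := Metric.diam_nonneg
    rcases le_or_gt c 0 with h0 | h0
    · have : c * Metric.diam C ≤ 0 := mul_nonpos_of_nonpos_of_nonneg h0 hd0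
      linarith
    · have : c * Metric.diam C ≤ c * 1 := mul_le_mul_of_nonneg_left hdiam h0.le
      linarith
  obtain ⟨_, ⟨x, hx, rfl⟩, hxlt⟩ := exists_lt_of_csInf_lt (hnt.nonempty.image _) hlt
  obtain ⟨w, hw0, hw1, hwx⟩ := weights_of_mem f hx
  refine ⟨w, hw0, hw1, fun i => ?_⟩
  have hbdd : BddAbove ((fun y : X => ‖x - y‖) '' C) := by
    refine ⟨2, ?_⟩
    rintro _ ⟨y, hy, rfl⟩
    have h1 := mem_closedBall_zero_iff.1 (hCball hx)
    have h2 := mem_closedBall_zero_iff.1 (hCball hy)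
    calc ‖x - y‖ ≤ ‖x‖ + ‖y‖ := norm_sub_le _ _
      _ ≤ 2 := by linarith
  have h1 : ‖x - f i‖ ≤ sSup ((fun y : X => ‖x - y‖) '' C) := le_csSup hbdd ⟨f i, hmem i, rfl⟩
  have h2 : z i - ∑ j, w j • z j = -(x - f i) := by
    rw [← hwx]
    simp only [hf, smul_sub, Finset.sum_sub_distrib, ← Finset.sum_smul, hw1, one_smul]
    abel
  rw [h2, norm_neg]
  exact (h1.trans_lt hxlt).le

lemma exists_center' {m : ℕ} (hm : 0 < m) {c c' : ℝ} (hU : SimplexBound X m c) (hc' : c < c')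
    (hc'0 : 0 < c') (z : Fin m → X) (ρ : ℝ) (hρ : 0 < ρ) (h : ∀ i j, ‖z i - z j‖ ≤ ρ) :
    ∃ w : Fin m → ℝ, (∀ i, 0 ≤ w i) ∧ ∑ i, w i = 1 ∧
      ∀ i, ‖z i - ∑ j, w j • z j‖ ≤ c' * ρ := by
  obtain ⟨w, hw0, hw1, hw⟩ := exists_center hm hU hc' hc'0 (fun i => ρ⁻¹ • z i) (by
    intro i j
    rw [← smul_sub, norm_smul, norm_inv, Real.norm_of_nonneg hρ.le, inv_mul_le_iff₀ hρ, mul_one]
    exact h i j)
  refine ⟨w, hw0, hw1, fun i => ?_⟩
  have h1 := hw i
  have h2 : ρ⁻¹ • z i - ∑ j, w j • ρ⁻¹ • z j = ρ⁻¹ • (z i - ∑ j, w j • z j) := by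
    rw [smul_sub, Finset.smul_sum]
    congr 1
    exact Finset.sum_congr rfl fun j _ => smul_comm _ _ _
  rw [h2, norm_smul, norm_inv, Real.norm_of_nonneg hρ.le, inv_mul_le_iff₀ hρ] at h1
  linarith

/-- Improvement for one `m` gives an equivalent uniformly convex norm. -/
theorem renorming {m : ℕ} (hm : 2 ≤ m) {c : ℝ} (hc : c < 1 - 1 / m) (hU : SimplexBound X m c) :
    UCRenorming X := by
  have hm2 : (2 : ℝ) ≤ m := by exact_mod_cast hm
  have hm1 : (1 : ℝ) / m ≤ 1 / 2 := one_div_le_one_div_of_le (by norm_num) hm2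
  set γ := 1 - 1 / (m : ℝ) - max c 0 with hγ
  have hγ0 : 0 < γ := by
    have : max c 0 < 1 - 1 / (m : ℝ) := max_lt hc (by linarith)
    linarith
  have hm0 : (0 : ℝ) < 1 / m := by positivity
  have hγ1 : γ ≤ 1 := by
    have : 0 ≤ max c 0 := le_max_right _ _
    linarith
  have hcm : c ≤ max c 0 := le_max_left _ _
  have hcm0 : 0 ≤ max c 0 := le_max_right _ _
  have hfrac : (γ / 30) ^ 2 / (m : ℝ) ^ 3 < 1 := by
    rw [div_lt_one (by positivity)]
    have h1 : (γ / 30) ^ 2 ≤ 1 := by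
      have : γ / 30 ≤ 1 := by linarith
      have h0 : 0 ≤ γ / 30 := by positivity
      nlinarith
    have h2 : (1 : ℝ) < (m : ℝ) ^ 3 := one_lt_pow₀ (by linarith) (by norm_num)
    linarith
  have hfrac0 : 0 < (γ / 30) ^ 2 / (m : ℝ) ^ 3 := by positivity
  have hG : Good m ((1 - (γ / 30) ^ 2 / m ^ 3) * (m - 1)) (fun x : X => ‖x‖ ^ 2) := by
    refine ⟨fun v => sq_nonneg _, fun t v => ?_, normSq_cvx, fun z => ?_⟩
    · rw [norm_smul, mul_pow, Real.norm_eq_abs, sq_abs]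
    · refine star hm (c' := 1 - 1 / m - 2 * γ / 3) (by positivity : 0 < γ / 30)
        (exists_center' (by omega) hU ?_ ?_) ?_ z
      · linarith
      · linarith
      · linarith
  obtain ⟨M, rfl⟩ : ∃ M, m = M + 1 := ⟨m - 1, by omega⟩
  have hM : 0 < M := by omega
  have hM' : (((M + 1 : ℕ) : ℝ) - 1) = M := by push_cast; ring
  have hMp : (0 : ℝ) < M := by exact_mod_cast hM
  have hqM : (1 - (γ / 30) ^ 2 / ((M + 1 : ℕ) : ℝ) ^ 3) * (((M + 1 : ℕ) : ℝ) - 1) < M := by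
    rw [hM']
    nlinarith
  have hq0 : 0 ≤ (1 - (γ / 30) ^ 2 / ((M + 1 : ℕ) : ℝ) ^ 3) * (((M + 1 : ℕ) : ℝ) - 1) := by
    rw [hM']
    exact mul_nonneg (by linarith) hMp.le
  exact renorm fun ε hε => exists_empty hM hq0 hqM hG hε

/-- A centre in the simplex bounds the Chebyshev radius. -/
lemma cheb_le {m : ℕ} (z : Fin m → X) {x : X} (hx : x ∈ convexHull ℝ (range z)) {R : ℝ}
    (h : ∀ i, ‖x - z i‖ ≤ R) : cheb (convexHull ℝ (range z)) ≤ R := by
  have h1 : convexHull ℝ (range z) ⊆ Metric.closedBall x R := by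
    refine convexHull_min ?_ (convex_closedBall _ _)
    rintro _ ⟨i, rfl⟩
    rw [mem_closedBall_iff_norm']
    exact h i
  refine csInf_le_of_le ⟨0, ?_⟩ ⟨x, hx, rfl⟩ ?_
  · rintro _ ⟨y, -, rfl⟩
    refine Real.sSup_nonneg ?_
    rintro _ ⟨u, -, rfl⟩
    exact norm_nonneg _
  · refine csSup_le ⟨_, x, hx, rfl⟩ ?_
    rintro _ ⟨y, hy, rfl⟩
    have := h1 hy
    rwa [mem_closedBall_iff_norm'] at this

lemma norm_le_diam {m : ℕ} (z : Fin m → X) (i j : Fin m) :
    ‖z i - z j‖ ≤ Metric.diam (convexHull ℝ (range z)) := by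
  rw [convexHull_diam, ← dist_eq_norm]
  exact Metric.dist_le_diam_of_mem (finite_range z).isBounded ⟨i, rfl⟩ ⟨j, rfl⟩

lemma centroid_mem {m : ℕ} (hm : 0 < m) (z : Fin m → X) :
    (m : ℝ)⁻¹ • ∑ j, z j ∈ convexHull ℝ (range z) := by
  have hm0 : (0 : ℝ) < m := by exact_mod_cast hm
  have h := (convex_convexHull ℝ (range z)).sum_mem (t := Finset.univ) (w := fun _ : Fin m => (m : ℝ)⁻¹)
    (z := z) (fun i _ => by positivity) (by simp [hm0.ne']) (fun i _ => subset_convexHull ℝ _ ⟨i, rfl⟩)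
  rwa [← Finset.smul_sum] at h

lemma centroid_sub {m : ℕ} (hm : 0 < m) (z : Fin m → X) (i : Fin m) :
    ‖(m : ℝ)⁻¹ • ∑ j, z j - z i‖ = (m : ℝ)⁻¹ * ‖∑ j, (z i - z j)‖ := by
  have hm0 : (0 : ℝ) < m := by exact_mod_cast hm
  have h : (m : ℝ)⁻¹ • ∑ j, z j - z i = -((m : ℝ)⁻¹ • ∑ j, (z i - z j)) := by
    rw [Finset.sum_sub_distrib, Finset.sum_const, Finset.card_univ, Fintype.card_fin, smul_sub,
      ← Nat.cast_smul_eq_nsmul ℝ, smul_smul, inv_mul_cancel₀ hm0.ne', one_smul]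
    abel
  rw [h, norm_neg, norm_smul, Real.norm_of_nonneg (by positivity)]

/-- The trivial bound, which holds in all spaces. -/
theorem trivial_bound {m : ℕ} (hm : 1 ≤ m) : SimplexBound X m (1 - 1 / m) := by
  intro z _ _
  have hm0 : (0 : ℝ) < m := by exact_mod_cast hm
  set D := Metric.diam (convexHull ℝ (range z)) with hD
  have hD0 : 0 ≤ D := Metric.diam_nonneg
  refine cheb_le z (centroid_mem hm z) fun i => ?_
  rw [centroid_sub hm]
  have h1 : ‖∑ j, (z i - z j)‖ ≤ (m - 1) * D := by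
    rw [← Finset.sum_erase_add _ _ (Finset.mem_univ i), sub_self, add_zero]
    refine (norm_sum_le _ _).trans ?_
    refine (Finset.sum_le_card_nsmul _ _ D fun j _ => norm_le_diam z i j).trans (le_of_eq ?_)
    rw [Finset.card_erase_of_mem (Finset.mem_univ i), Finset.card_univ, Fintype.card_fin,
      nsmul_eq_mul, Nat.cast_sub hm, Nat.cast_one]
  calc (m : ℝ)⁻¹ * ‖∑ j, (z i - z j)‖ ≤ (m : ℝ)⁻¹ * ((m - 1) * D) :=
        mul_le_mul_of_nonneg_left h1 (by positivity)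
    _ = (1 - 1 / m) * D := by field_simp

lemma uc_scaled {ε δ D : ℝ} (hD : 0 < D)
    (h : ∀ x y : X, ‖x‖ ≤ 1 → ‖y‖ ≤ 1 → ε ≤ ‖x - y‖ → ‖x + y‖ ≤ 2 - δ) (x y : X) (hx : ‖x‖ ≤ D)
    (hy : ‖y‖ ≤ D) (hxy : ε * D ≤ ‖x - y‖) : ‖x + y‖ ≤ (2 - δ) * D := by
  have h1 := h (D⁻¹ • x) (D⁻¹ • y)
    (by rw [norm_smul, norm_inv, Real.norm_of_nonneg hD.le, inv_mul_le_iff₀ hD, mul_one]; exact hx)
    (by rw [norm_smul, norm_inv, Real.norm_of_nonneg hD.le, inv_mul_le_iff₀ hD, mul_one]; exact hy)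
    (by
      rw [← smul_sub, norm_smul, norm_inv, Real.norm_of_nonneg hD.le, le_inv_mul_iff₀ hD, mul_comm]
      exact hxy)
  rw [← smul_add, norm_smul, norm_inv, Real.norm_of_nonneg hD.le, inv_mul_le_iff₀ hD] at h1
  linarith

/-- In a uniformly convex space the trivial bound can be improved for every `m ≥ 3`. -/
theorem uc_bound (hX : UniformlyConvexNorm X) {m : ℕ} (hm : 3 ≤ m) :
    ∃ c : ℝ, c < 1 - 1 / m ∧ SimplexBound X m c := by
  classical
  obtain ⟨δ, hδ, hUC⟩ := hX (1 / 12) (by norm_num)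
  have hm3 : (3 : ℝ) ≤ m := by exact_mod_cast hm
  have hm0 : (0 : ℝ) < m := by linarith
  have hm1 : (1 : ℝ) / m ≤ 1 / 3 := one_div_le_one_div_of_le (by norm_num) hm3
  refine ⟨max (7 / 12) (1 - 1 / m - δ / m), max_lt (by linarith) ?_, fun z _ hnt => ?_⟩
  · have : 0 < δ / m := by positivity
    linarith
  set D := Metric.diam (convexHull ℝ (range z)) with hD
  have hle : ∀ i j, ‖z i - z j‖ ≤ D := norm_le_diam z
  have hD0 : 0 < D := by
    by_contra hcon
    have h0 : ∀ i j, z i = z j := fun i j => by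
      rw [← sub_eq_zero, ← norm_le_zero_iff]
      exact (hle i j).trans (not_lt.1 hcon)
    have h1 : convexHull ℝ (range z) ⊆ {z ⟨0, by omega⟩} := by
      refine convexHull_min ?_ (convex_singleton _)
      rintro _ ⟨i, rfl⟩
      exact h0 _ _
    obtain ⟨x, hx, y, hy, hxy⟩ := hnt
    exact hxy ((h1 hx).trans (h1 hy).symm)
  by_cases hcase : ∃ i, ∀ j k, j ≠ i → k ≠ i → ‖z j - z k‖ < 1 / 12 * D
  · obtain ⟨i, hi⟩ := hcase
    obtain ⟨j₀, hj₀⟩ : ∃ j : Fin m, j ≠ i := by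
      have : Nontrivial (Fin m) := Fin.nontrivial_iff_two_le.2 (by omega)
      exact exists_ne i
    have hmem : (1 / 2 : ℝ) • z i + (1 / 2 : ℝ) • z j₀ ∈ convexHull ℝ (range z) :=
      (convex_convexHull ℝ _) (subset_convexHull ℝ (range z) ⟨i, rfl⟩)
        (subset_convexHull ℝ (range z) ⟨j₀, rfl⟩)
        (by norm_num) (by norm_num) (by norm_num)
    refine (cheb_le z hmem (R := 7 / 12 * D) fun k => ?_).trans
      (mul_le_mul_of_nonneg_right (le_max_left _ _) hD0.le)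
    by_cases hk : k = i
    · subst hk
      have h1 : (1 / 2 : ℝ) • z k + (1 / 2 : ℝ) • z j₀ - z k = (1 / 2 : ℝ) • (z j₀ - z k) := by
        module
      rw [h1, norm_smul, Real.norm_of_nonneg (by norm_num)]
      have := hle j₀ k
      linarith
    · have h1 : (1 / 2 : ℝ) • z i + (1 / 2 : ℝ) • z j₀ - z k =
          (1 / 2 : ℝ) • (z i - z j₀) + (z j₀ - z k) := by
        module
      rw [h1]
      refine (norm_add_le _ _).trans ?_
      rw [norm_smul, Real.norm_of_nonneg (by norm_num)]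
      have h2 := hle i j₀
      have h3 := hi j₀ k hj₀ hk
      linarith
  · push Not at hcase
    refine (cheb_le z (centroid_mem (by omega) z) (R := (1 - 1 / m - δ / m) * D) fun i => ?_).trans
      (mul_le_mul_of_nonneg_right (le_max_right _ _) hD0.le)
    obtain ⟨j, k, hj, hk, hjk⟩ := hcase i
    rw [centroid_sub (by omega)]
    have hne : j ≠ k := by
      rintro rfl
      rw [sub_self, norm_zero] at hjk
      linarith
    have h1 : ‖(z i - z j) + (z i - z k)‖ ≤ (2 - δ) * D := by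
      refine uc_scaled hD0 hUC _ _ (hle i j) (hle i k) ?_
      rw [sub_sub_sub_cancel_left, norm_sub_rev]
      exact hjk
    have h2 : ‖∑ l, (z i - z l)‖ ≤ (2 - δ) * D + (m - 3) * D := by
      have e1 : ∑ l, (z i - z l) = (z i - z j) + (z i - z k) +
          ∑ l ∈ ((Finset.univ.erase i).erase j).erase k, (z i - z l) := by
        rw [← Finset.sum_erase_add _ _ (Finset.mem_univ i), sub_self, add_zero,
          ← Finset.sum_erase_add _ _ (Finset.mem_erase.2 ⟨hj, Finset.mem_univ j⟩),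
          ← Finset.sum_erase_add _ _ (Finset.mem_erase.2 ⟨hne.symm,
            Finset.mem_erase.2 ⟨hk, Finset.mem_univ k⟩⟩)]
        abel
      rw [e1]
      refine (norm_add_le _ _).trans (add_le_add h1 ?_)
      refine (norm_sum_le _ _).trans ?_
      refine (Finset.sum_le_card_nsmul _ _ D fun l _ => norm_le_diam z i l).trans (le_of_eq ?_)
      rw [Finset.card_erase_of_mem (Finset.mem_erase.2 ⟨hne.symm,
            Finset.mem_erase.2 ⟨hk, Finset.mem_univ k⟩⟩),
        Finset.card_erase_of_mem (Finset.mem_erase.2 ⟨hj, Finset.mem_univ j⟩),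
        Finset.card_erase_of_mem (Finset.mem_univ i), Finset.card_univ, Fintype.card_fin,
        nsmul_eq_mul, Nat.sub_sub, Nat.sub_sub, Nat.cast_sub (by omega)]
      norm_num
    calc (m : ℝ)⁻¹ * ‖∑ j, (z i - z j)‖ ≤ (m : ℝ)⁻¹ * ((2 - δ) * D + (m - 3) * D) :=
          mul_le_mul_of_nonneg_left h2 (by positivity)
      _ = (1 - 1 / m - δ / m) * D := by field_simp; ring

lemma uns_bound (h : UniformNormalStructure X) :
    ∃ m : ℕ, 3 ≤ m ∧ ∃ c : ℝ, c < 1 - 1 / m ∧ SimplexBound X m c := by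
  obtain ⟨c, hc, hU⟩ := h
  obtain ⟨m, hm⟩ := exists_nat_gt (1 / (1 - c))
  have hc0 : 0 < 1 - c := by linarith
  refine ⟨m + 3, by omega, c, ?_, fun z h1 h2 => hU _ h1 (convex_convexHull ℝ _) h2⟩
  have h1 : 0 < 1 / (1 - c) := by positivity
  have h2 : (1 : ℝ) / ((m + 3 : ℕ) : ℝ) < 1 - c := by
    rw [div_lt_iff₀ hc0] at hm
    rw [div_lt_iff₀ (by positivity)]
    push_cast
    nlinarith
  linarith

/-- **Main result.**  Let `X` be a real normed space.
(1) If for one single `m ≥ 2` some constant `c < 1 - 1/m` satisfies `r(C) ≤ c diam C` for all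
simplices `C` in the unit ball with `m` vertices, then `X` has an equivalent uniformly convex norm
(is superreflexive, if complete).
(2) The constant `1 - 1/m` works in every normed space.
(3) If the norm of `X` is uniformly convex then for every `m ≥ 3` there is such a `c < 1 - 1/m`.
(4) Uniform normal structure implies that there is such a `c < 1 - 1/m` for some `m ≥ 3`, and hence
that `X` has an equivalent uniformly convex norm. -/
theorem result (X : Type) [NormedAddCommGroup X] [NormedSpace ℝ X] :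
    (∀ m : ℕ, 2 ≤ m → ∀ c : ℝ, c < 1 - 1 / m → SimplexBound X m c → UCRenorming X) ∧
    (∀ m : ℕ, 1 ≤ m → SimplexBound X m (1 - 1 / m)) ∧
    (UniformlyConvexNorm X → ∀ m : ℕ, 3 ≤ m → ∃ c : ℝ, c < 1 - 1 / m ∧ SimplexBound X m c) ∧
    (UniformNormalStructure X → ∃ m : ℕ, 3 ≤ m ∧ ∃ c : ℝ, c < 1 - 1 / m ∧ SimplexBound X m c) ∧
    (UniformNormalStructure X → UCRenorming X) := by
  refine ⟨fun m hm c hc h => renorming hm hc h, fun m hm => trivial_bound hm,
    fun h m hm => uc_bound h hm, uns_bound, fun h => ?_⟩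
  obtain ⟨m, hm, c, hc, h1⟩ := uns_bound h
  exact renorming (by omega) hc h1

end Pool.Agent.Results.MP_e45c49_an.OneSimplex
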